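import Mathlib
import Pool.Agent.V11158.Wheel

open Polynomial Pool.Agent.V11158.Wheel

namespace Pool.Agent.Results.MP_0e848e_co.WheelCounterexample

/-- A sign vector `σ` is a chamber of the arrangement with normals `α 0, …, α (n-1)` if some point
`x` lies strictly on the sides of all hyperplanes prescribed by `σ` (`true` is the positive
side). -/
def IsChamber {d n : ℕ} (α : Fin n → Fin d → ℝ) (σ : Fin n → Bool) : Prop :=
  ∃ x : Fin d → ℝ, ∀ i, (σ i = true → 0 < α i ⬝ᵥ x) ∧ (σ i = false → α i ⬝ᵥ x < 0)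

/-- The chambers of the arrangement with normals `α`, each encoded by its sign vector. -/
abbrev Chamber {d n : ℕ} (α : Fin n → Fin d → ℝ) : Type := {σ : Fin n → Bool // IsChamber α σ}

noncomputable instance {d n : ℕ} (α : Fin n → Fin d → ℝ) : Fintype (Chamber α) :=
  Fintype.ofFinite _

/-- The tope graph: chambers separated by exactly one hyperplane are adjacent. -/
def topeGraph {d n : ℕ} (α : Fin n → Fin d → ℝ) : SimpleGraph (Chamber α) where
  Adj C D := hammingDist C.1 D.1 = 1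
  symm := ⟨fun C D h => by rw [hammingDist_comm]; exact h⟩
  loopless := ⟨fun C h => by rw [hammingDist_self] at h; exact absurd h (by norm_num)⟩

/-- A graph is vertex-transitive if its automorphism group acts transitively on its vertices. -/
def VertexTransitive {V : Type} (G : SimpleGraph V) : Prop :=
  ∀ u v : V, ∃ φ : G ≃g G, φ u = v

/-- The `q`-Varchenko matrix, over `ℚ(q)`. -/
noncomputable def varchenko {d n : ℕ} (α : Fin n → Fin d → ℝ) :
    Matrix (Chamber α) (Chamber α) (RatFunc ℚ) :=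
  Matrix.of fun C D => RatFunc.X ^ hammingDist C.1 D.1

open Classical in
/-- The magnitude. -/
noncomputable def mag {d n : ℕ} (α : Fin n → Fin d → ℝ) : RatFunc ℚ :=
  ∑ C, ∑ D, (varchenko α)⁻¹ C D

/-- The hyperplanes orthogonal to the `α i` are distinct hyperplanes. -/
def IsArrangement {d n : ℕ} (α : Fin n → Fin d → ℝ) : Prop :=
  (∀ i, α i ≠ 0) ∧ ∀ i j, i ≠ j → LinearIndependent ℝ ![α i, α j]

/-- The rank of the arrangement: the dimension of the span of the normals. -/
noncomputable def arrRank {d n : ℕ} (α : Fin n → Fin d → ℝ) : ℕ :=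
  Module.finrank ℝ (Submodule.span ℝ (Set.range α))

/-- The arrangement is not a direct sum of two nonempty arrangements: its normals cannot be split
into two nonempty families whose spans meet only in `0`. -/
def Indecomposable {d n : ℕ} (α : Fin n → Fin d → ℝ) : Prop :=
  ∀ S : Set (Fin n), S.Nonempty → Sᶜ.Nonempty →
    ¬ Disjoint (Submodule.span ℝ (α '' S)) (Submodule.span ℝ (α '' Sᶜ))

section general

variable {d n : ℕ} (α : Fin n → Fin d → ℝ)

open Classical in
lemma varchenko_det : (varchenko α).det ≠ 0 := by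
  set V' : Matrix (Chamber α) (Chamber α) ℚ[X] :=
    Matrix.of fun (C D : Chamber α) => X ^ hammingDist C.1 D.1 with hV'
  have h1 : varchenko α = (algebraMap ℚ[X] (RatFunc ℚ)).mapMatrix V' := by
    ext C D
    simp [varchenko, hV', RatFunc.algebraMap_X]
  have h2 : (evalRingHom (0 : ℚ)).mapMatrix V' = 1 := by
    ext C D
    by_cases h : C = D
    · subst h
      simp [hV']
    · have : hammingDist C.1 D.1 ≠ 0 := by
        rw [Ne, hammingDist_eq_zero]
        exact fun h' => h (Subtype.ext h')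
      simp [hV', Matrix.one_apply_ne h, this]
  have h3 : V'.det ≠ 0 := by
    intro h
    have := congrArg (evalRingHom (0 : ℚ)) h
    rw [RingHom.map_det, h2, Matrix.det_one, map_zero] at this
    exact one_ne_zero this
  rw [h1, ← RingHom.map_det]
  exact fun h => h3 ((map_eq_zero_iff _ (RatFunc.algebraMap_injective ℚ)).mp h)

/-- The magnitude from a weighting. -/
lemma mag_eq (w : Chamber α → RatFunc ℚ)
    (h : ∀ C : Chamber α, ∑ D : Chamber α, RatFunc.X ^ hammingDist C.1 D.1 * w D = 1) :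
    mag α = ∑ C, w C := by
  classical
  have hu : IsUnit (varchenko α).det := (varchenko_det α).isUnit
  have h1 : (varchenko α).mulVec w = 1 := by
    funext C
    exact h C
  have h2 : (varchenko α)⁻¹.mulVec 1 = w := by
    rw [← h1, Matrix.mulVec_mulVec, Matrix.nonsing_inv_mul _ hu, Matrix.one_mulVec]
  have h3 : ∀ C, ∑ D, (varchenko α)⁻¹ C D = w C := by
    intro C
    rw [← h2]
    simp [Matrix.mulVec, dotProduct]
  unfold mag
  exact Finset.sum_congr rfl fun C _ => h3 C

end general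

/-! ### the wheel with five spokes -/

/-- integer normals -/
def wz : Fin 10 → Fin 5 → ℤ :=
  ![![1, 0, 0, 0, 0], ![0, 1, 0, 0, 0], ![0, 0, 1, 0, 0], ![0, 0, 0, 1, 0], ![0, 0, 0, 0, 1],
    ![1, -1, 0, 0, 0], ![0, 1, -1, 0, 0], ![0, 0, 1, -1, 0], ![0, 0, 0, 1, -1],
    ![-1, 0, 0, 0, 1]]

/-- The arrangement of the hyperplanes `x_i = 0` and `x_i = x_{i+1}` (indices modulo `5`), that is,
the graphic arrangement of the wheel with five spokes. -/
def wheel : Fin 10 → Fin 5 → ℝ := fun i k => (wz i k : ℝ)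

/-- values of the linear forms -/
def sv {R : Type} [Ring R] (x : Fin 5 → R) : Fin 10 → R :=
  ![x 0, x 1, x 2, x 3, x 4, x 0 - x 1, x 1 - x 2, x 2 - x 3, x 3 - x 4, x 4 - x 0]

lemma wheel_dot (x : Fin 5 → ℝ) (i : Fin 10) : wheel i ⬝ᵥ x = sv x i := by
  fin_cases i <;> simp [wheel, wz, sv, dotProduct, Fin.sum_univ_five] <;> ring

/-- sign vector of a code -/
def ofCode (c : ℕ) : Fin 10 → Bool := fun i => c.testBit i

/-- coordinates of the point of a code -/
def ptz (p : ℕ) : Fin 5 → ℤ := fun i => (((p >>> (4 * (i : ℕ))) &&& 15 : ℕ) : ℤ) - 8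

lemma tab_point : ∀ e ∈ tab, ∀ i : Fin 10,
    (ofCode e.1 i = true → 0 < sv (ptz e.2.2) i) ∧ (ofCode e.1 i = false → sv (ptz e.2.2) i < 0) := by
  decide +kernel

lemma sv_cast (x : Fin 5 → ℤ) (i : Fin 10) : sv (fun k => (x k : ℝ)) i = ((sv x i : ℤ) : ℝ) := by
  fin_cases i <;> simp [sv]

lemma isChamber_of_mem {c : ℕ × ℕ} (hc : c ∈ L) : IsChamber wheel (ofCode c.1) := by
  unfold L at hc
  rw [List.mem_map] at hc
  obtain ⟨e, he, rfl⟩ := hc
  refine ⟨fun k => (ptz e.2.2 k : ℝ), fun i => ?_⟩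
  rw [wheel_dot, sv_cast]
  have := tab_point e he i
  refine ⟨fun h => ?_, fun h => ?_⟩
  · exact_mod_cast this.1 h
  · exact_mod_cast this.2 h

/-- sign condition on a triangle -/
def cl (s s' t : Bool) : Bool := !(s && !s' && !t) && !(!s && s' && t)

/-- sign condition on the rim -/
def cy (t0 t1 t2 t3 t4 : Bool) : Bool :=
  !(t0 && t1 && t2 && t3 && t4) && !(!t0 && !t1 && !t2 && !t3 && !t4)

/-- sign conditions -/
def ok (s0 s1 s2 s3 s4 t0 t1 t2 t3 t4 : Bool) : Bool :=
  cl s0 s1 t0 && cl s1 s2 t1 && cl s2 s3 t2 && cl s3 s4 t3 && cl s4 s0 t4 && cy t0 t1 t2 t3 t4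

/-- code of a sign vector -/
def codeOf (b : Fin 10 → Bool) : ℕ :=
  (b 0).toNat + 2 * (b 1).toNat + 4 * (b 2).toNat + 8 * (b 3).toNat + 16 * (b 4).toNat +
  32 * (b 5).toNat + 64 * (b 6).toNat + 128 * (b 7).toNat + 256 * (b 8).toNat + 512 * (b 9).toNat

lemma key : ∀ b0 b1 b2 b3 b4 b5 b6 b7 b8 b9 : Bool, ok b0 b1 b2 b3 b4 b5 b6 b7 b8 b9 = true →
    codeOf ![b0, b1, b2, b3, b4, b5, b6, b7, b8, b9] ∈ L.map Prod.fst ∧
    ∀ i, ofCode (codeOf ![b0, b1, b2, b3, b4, b5, b6, b7, b8, b9]) i =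
      ![b0, b1, b2, b3, b4, b5, b6, b7, b8, b9] i := by
  decide +kernel

lemma clause {s s' t : Bool} {x y : ℝ} (h1 : (s = true → 0 < x) ∧ (s = false → x < 0))
    (h2 : (s' = true → 0 < y) ∧ (s' = false → y < 0))
    (h3 : (t = true → 0 < x - y) ∧ (t = false → x - y < 0)) :
    cl s s' t = true := by
  cases s <;> cases s' <;> cases t <;> simp [cl] at * <;> linarith

lemma clause2 {t0 t1 t2 t3 t4 : Bool} {x0 x1 x2 x3 x4 : ℝ}
    (h0 : (t0 = true → 0 < x0 - x1) ∧ (t0 = false → x0 - x1 < 0))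
    (h1 : (t1 = true → 0 < x1 - x2) ∧ (t1 = false → x1 - x2 < 0))
    (h2 : (t2 = true → 0 < x2 - x3) ∧ (t2 = false → x2 - x3 < 0))
    (h3 : (t3 = true → 0 < x3 - x4) ∧ (t3 = false → x3 - x4 < 0))
    (h4 : (t4 = true → 0 < x4 - x0) ∧ (t4 = false → x4 - x0 < 0)) :
    cy t0 t1 t2 t3 t4 = true := by
  cases t0 <;> cases t1 <;> cases t2 <;> cases t3 <;> cases t4 <;> simp [cy] at * <;> linarith

lemma exists_code {σ : Fin 10 → Bool} (h : IsChamber wheel σ) : ∃ c ∈ L, ofCode c.1 = σ := by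
  obtain ⟨x, hx⟩ := h
  have hx' : ∀ i, (σ i = true → 0 < sv x i) ∧ (σ i = false → sv x i < 0) := by
    intro i
    have := hx i
    rwa [wheel_dot] at this
  have hσ : σ = ![σ 0, σ 1, σ 2, σ 3, σ 4, σ 5, σ 6, σ 7, σ 8, σ 9] := by
    funext i
    fin_cases i <;> rfl
  have hok : ok (σ 0) (σ 1) (σ 2) (σ 3) (σ 4) (σ 5) (σ 6) (σ 7) (σ 8) (σ 9) = true := by
    unfold ok
    rw [Bool.and_eq_true, Bool.and_eq_true, Bool.and_eq_true, Bool.and_eq_true, Bool.and_eq_true]
    exact ⟨⟨⟨⟨⟨clause (hx' 0) (hx' 1) (hx' 5), clause (hx' 1) (hx' 2) (hx' 6)⟩,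
      clause (hx' 2) (hx' 3) (hx' 7)⟩, clause (hx' 3) (hx' 4) (hx' 8)⟩,
      clause (hx' 4) (hx' 0) (hx' 9)⟩, clause2 (hx' 5) (hx' 6) (hx' 7) (hx' 8) (hx' 9)⟩
  obtain ⟨h1, h2⟩ := key _ _ _ _ _ _ _ _ _ _ hok
  rw [List.mem_map] at h1
  obtain ⟨c, hc, hc1⟩ := h1
  refine ⟨c, hc, ?_⟩
  rw [hσ, hc1]
  funext i
  exact h2 i

lemma codes_nodup : (L.map Prod.fst).Nodup := by decide +kernel

lemma codes_lt : ∀ c ∈ L, c.1 < 1024 := by decide +kernel

lemma ofCode_inj {c c' : ℕ × ℕ} (hc : c ∈ L) (hc' : c' ∈ L) (h : ofCode c.1 = ofCode c'.1) :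
    c = c' := by
  have h1 : c.1 = c'.1 := by
    apply Nat.eq_of_testBit_eq
    intro i
    by_cases hi : i < 10
    · exact congrFun h ⟨i, hi⟩
    · have h2 : ∀ c ∈ L, c.1.testBit i = false := by
        intro c hc
        apply Nat.testBit_lt_two_pow
        calc c.1 < 2 ^ 10 := codes_lt c hc
          _ ≤ 2 ^ i := Nat.pow_le_pow_right (by norm_num) (by omega)
      rw [h2 c hc, h2 c' hc']
  exact List.inj_on_of_nodup_map codes_nodup hc hc' h1

lemma L_nodup : L.Nodup := codes_nodup.of_map _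

/-- the table entry of a chamber -/
noncomputable def pick (C : Chamber wheel) : ℕ × ℕ := (exists_code C.2).choose

lemma pick_mem (C : Chamber wheel) : pick C ∈ L := (exists_code C.2).choose_spec.1

lemma pick_code (C : Chamber wheel) : ofCode (pick C).1 = C.1 := (exists_code C.2).choose_spec.2

lemma pick_eq (C : Chamber wheel) {c : ℕ × ℕ} (hc : c ∈ L) (h : ofCode c.1 = C.1) : pick C = c :=
  ofCode_inj (pick_mem C) hc ((pick_code C).trans h.symm)

lemma sum_chambers {M : Type} [AddCommMonoid M] (G : ℕ × ℕ → M) :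
    ∑ C : Chamber wheel, G (pick C) = (L.map G).sum := by
  classical
  rw [← List.sum_toFinset G L_nodup]
  apply Finset.sum_bij (fun C _ => pick C)
  · intro C _
    exact List.mem_toFinset.mpr (pick_mem C)
  · intro C _ D _ h
    apply Subtype.ext
    rw [← pick_code C, ← pick_code D, h]
  · intro c hc
    rw [List.mem_toFinset] at hc
    exact ⟨⟨ofCode c.1, isChamber_of_mem hc⟩, Finset.mem_univ _, pick_eq _ hc rfl⟩
  · intro C _
    rfl

lemma bit1 (x k : ℕ) : x >>> k &&& 1 = if x.testBit k then 1 else 0 := by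
  simp only [Nat.testBit, Nat.and_one_is_mod, Nat.one_and_eq_mod_two]
  rcases Nat.mod_two_eq_zero_or_one (x >>> k) with h | h <;> simp [h]

lemma pc_eq (a c : ℕ) : hammingDist (ofCode a) (ofCode c) = pc (a ^^^ c) := by
  have h0 : ∀ x : ℕ, x &&& 1 = x >>> 0 &&& 1 := fun x => by simp
  have h1 : ∀ p q : Bool, (if p ≠ q then 1 else 0 : ℕ) = if (p ^^ q) = true then 1 else 0 := by
    decide
  have h2 : ∀ i : Fin 10, (if ofCode a i ≠ ofCode c i then 1 else 0 : ℕ) =
      if (a ^^^ c).testBit i = true then 1 else 0 := by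
    intro i
    rw [Nat.testBit_xor]
    exact h1 _ _
  unfold hammingDist pc
  rw [Finset.card_filter, Finset.sum_congr rfl (fun i _ => h2 i), h0]
  simp only [bit1, Fin.sum_univ_succ, Fin.sum_univ_zero]
  simp only [Fin.val_zero, Fin.val_succ, zero_add, Nat.reduceAdd]
  ring

lemma dist_eq (C D : Chamber wheel) : hammingDist C.1 D.1 = pc ((pick C).1 ^^^ (pick D).1) := by
  rw [← pc_eq, pick_code, pick_code]

/-! ### the magnitude -/

/-- integer polynomials as rational functions -/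
noncomputable def ι : ℤ[X] →+* RatFunc ℚ :=
  (algebraMap ℚ[X] (RatFunc ℚ)).comp (mapRingHom (Int.castRingHom ℚ))

lemma ι_inj : Function.Injective ι := by
  unfold ι
  rw [RingHom.coe_comp]
  exact (RatFunc.algebraMap_injective ℚ).comp (map_injective _ Int.cast_injective)

lemma ι_X : ι X = RatFunc.X := by simp [ι, RatFunc.algebraMap_X]

lemma den_ne : lpol denl ≠ 0 := by
  intro h
  have := congrArg (fun f => f.coeff 0) h
  simp [lpol, denl] at this

lemma row_sum (a : ℕ) (l : List (ℕ × ℕ)) :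
    (l.map (fun c => RatFunc.X ^ pc (a ^^^ c.1) * (ι (lpol (wpoly c.2)) / ι (lpol denl)))).sum =
      ι (rowP a l) / ι (lpol denl) := by
  induction l with
  | nil => simp [rowP]
  | cons c l ih =>
    rw [List.map_cons, List.sum_cons, ih, rowP, map_add, map_mul, map_pow, ι_X]
    ring

/-- the weights -/
noncomputable def wt (C : Chamber wheel) : RatFunc ℚ := ι (lpol (wpoly (pick C).2)) / ι (lpol denl)

lemma weighting (C : Chamber wheel) :
    ∑ D : Chamber wheel, RatFunc.X ^ hammingDist C.1 D.1 * wt D = 1 := by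
  have h1 : ∀ D : Chamber wheel, RatFunc.X ^ hammingDist C.1 D.1 * wt D =
      (fun c : ℕ × ℕ => RatFunc.X ^ pc ((pick C).1 ^^^ c.1) *
        (ι (lpol (wpoly c.2)) / ι (lpol denl))) (pick D) := by
    intro D
    rw [dist_eq, wt]
  have h2 := sum_chambers (fun c : ℕ × ℕ => RatFunc.X ^ pc ((pick C).1 ^^^ c.1) *
    (ι (lpol (wpoly c.2)) / ι (lpol denl)))
  refine (Finset.sum_congr rfl (fun D _ => h1 D)).trans (h2.trans ?_)
  rw [row_sum, rowP_eq _ (List.mem_map_of_mem (pick_mem C))]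
  exact div_self ((map_ne_zero_iff _ ι_inj).mpr den_ne)

/-- sum of the numerators -/
noncomputable def numS : List (ℕ × ℕ) → ℤ[X]
  | [] => 0
  | c :: l => lpol (wpoly c.2) + numS l

lemma numS_sum (l : List (ℕ × ℕ)) :
    (l.map (fun c => (ι (lpol (wpoly c.2)) / ι (lpol denl)))).sum = ι (numS l) / ι (lpol denl) := by
  induction l with
  | nil => simp [numS]
  | cons c l ih =>
    rw [List.map_cons, List.sum_cons, ih, numS, map_add]
    ring

lemma mag_wheel : mag wheel = ι (numS L) / ι (lpol denl) := by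
  rw [mag_eq wheel wt weighting, ← numS_sum]
  exact sum_chambers (fun c => (ι (lpol (wpoly c.2)) / ι (lpol denl)))

lemma denom_dvd : (mag wheel).denom ∣ (lpol denl).map (Int.castRingHom ℚ) := by
  have h0 : (lpol denl).map (Int.castRingHom ℚ) ≠ 0 :=
    (Polynomial.map_ne_zero_iff Int.cast_injective).mpr den_ne
  rw [RatFunc.denom_dvd h0]
  exact ⟨(numS L).map (Int.castRingHom ℚ), by rw [mag_wheel]; rfl⟩

lemma den_factor : (lpol denl) =
    (X + 1) ^ 4 * (X ^ 2 + X + 1) * (X ^ 4 - X ^ 3 + X ^ 2 - X + 1) * (X ^ 2 + 1) *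
      (X ^ 4 + X ^ 3 + X ^ 2 + X + 1) * (X ^ 6 + X ^ 5 + X ^ 4 + X ^ 3 + X ^ 2 + X + 1) := by
  simp only [lpol, denl, map_one, map_ofNat]
  ring

lemma not_dvd : ¬ cyclotomic (2 * 10) ℚ ∣ (mag wheel).denom := by
  intro h
  have h1 := h.trans denom_dvd
  have hz := Complex.isPrimitiveRoot_exp 20 (by norm_num)
  set z := Complex.exp (2 * Real.pi * Complex.I / (20 : ℕ)) with hzdef
  have h2 : aeval z (cyclotomic (2 * 10) ℚ) = 0 := by
    have h3 : (cyclotomic 20 ℂ).IsRoot z := hz.isRoot_cyclotomic (by norm_num)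
    rw [← map_cyclotomic 20 (algebraMap ℚ ℂ)] at h3
    rw [aeval_def, eval₂_eq_eval_map]
    exact h3
  have h4 : aeval z ((lpol denl).map (Int.castRingHom ℚ)) = 0 := by
    obtain ⟨g, hg⟩ := h1
    rw [hg, map_mul, h2, zero_mul]
  have h5 : (z + 1) ^ 4 * (z ^ 2 + z + 1) * (z ^ 4 - z ^ 3 + z ^ 2 - z + 1) * (z ^ 2 + 1) *
      (z ^ 4 + z ^ 3 + z ^ 2 + z + 1) * (z ^ 6 + z ^ 5 + z ^ 4 + z ^ 3 + z ^ 2 + z + 1) = 0 := by
    rw [den_factor] at h4
    simpa using h4
  have hne : ∀ m : ℕ, 0 < m → m < 20 → z ^ m ≠ 1 := fun m h1 h2 =>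
    hz.pow_ne_one_of_pos_of_lt h1.ne' h2
  simp only [mul_eq_zero, pow_eq_zero_iff, ne_eq, OfNat.ofNat_ne_zero, not_false_eq_true] at h5
  rcases h5 with ((((h5 | h5) | h5) | h5) | h5) | h5
  · exact hne 2 (by norm_num) (by norm_num) (by linear_combination (z - 1) * h5)
  · exact hne 3 (by norm_num) (by norm_num) (by linear_combination (z - 1) * h5)
  · exact hne 10 (by norm_num) (by norm_num)
      (by linear_combination (z + 1) * (z ^ 5 - 1) * h5)
  · exact hne 4 (by norm_num) (by norm_num) (by linear_combination (z ^ 2 - 1) * h5)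
  · exact hne 5 (by norm_num) (by norm_num) (by linear_combination (z - 1) * h5)
  · exact hne 7 (by norm_num) (by norm_num) (by linear_combination (z - 1) * h5)

/-! ### the tope graph -/

lemma degree_eq (C : Chamber wheel) :
    ∑ D : Chamber wheel, (if hammingDist C.1 D.1 = 1 then 1 else 0 : ℕ) =
      (L.map (fun c => if pc ((pick C).1 ^^^ c.1) = 1 then 1 else 0 : ℕ × ℕ → ℕ)).sum := by
  rw [← sum_chambers]
  exact Finset.sum_congr rfl fun D _ => by rw [dist_eq]

lemma not_transitive : ¬ VertexTransitive (topeGraph wheel) := by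
  classical
  intro h
  have m1 : ((512, 0) : ℕ × ℕ) ∈ L := by decide +kernel
  have m2 : ((768, 1) : ℕ × ℕ) ∈ L := by decide +kernel
  obtain ⟨φ, hφ⟩ := h ⟨ofCode 512, isChamber_of_mem m1⟩ ⟨ofCode 768, isChamber_of_mem m2⟩
  have h1 := degree_eq ⟨ofCode 512, isChamber_of_mem m1⟩
  have h2 := degree_eq ⟨ofCode 768, isChamber_of_mem m2⟩
  rw [pick_eq _ m1 rfl] at h1
  rw [pick_eq _ m2 rfl] at h2
  have h3 : (L.map (fun c => if pc (512 ^^^ c.1) = 1 then 1 else 0 : ℕ × ℕ → ℕ)).sum = 5 := by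
    decide +kernel
  have h4 : (L.map (fun c => if pc (768 ^^^ c.1) = 1 then 1 else 0 : ℕ × ℕ → ℕ)).sum = 6 := by
    decide +kernel
  rw [h3] at h1
  rw [h4, ← Equiv.sum_comp φ.toEquiv] at h2
  have h5 : ∀ D : Chamber wheel,
      (hammingDist (ofCode 768) (φ.toEquiv D).1 = 1 ↔ hammingDist (ofCode 512) D.1 = 1) := by
    intro D
    have := φ.map_adj_iff (v := ⟨ofCode 512, isChamber_of_mem m1⟩) (w := D)
    rw [hφ] at this
    exact this
  simp only [h5] at h2
  rw [h1] at h2
  exact absurd h2 (by norm_num)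

/-! ### the arrangement -/

lemma wheel_isArrangement : IsArrangement wheel := by
  constructor
  · intro i h
    have : ∀ i, ∃ k, wz i k ≠ 0 := by decide +kernel
    obtain ⟨k, hk⟩ := this i
    have h1 := congrFun h k
    simp only [wheel, Pi.zero_apply] at h1
    exact hk (by exact_mod_cast h1)
  · intro i j hij
    have : ∀ i j, i ≠ j → ∃ k l, wz i k * wz j l - wz i l * wz j k ≠ 0 := by decide +kernel
    obtain ⟨k, l, hkl⟩ := this i j hij
    rw [LinearIndependent.pair_iff]
    intro s t h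
    have hk := congrFun h k
    have hl := congrFun h l
    simp only [wheel, Pi.add_apply, Pi.smul_apply, smul_eq_mul, Pi.zero_apply] at hk hl
    have hne : ((wz i k : ℝ) * wz j l - wz i l * wz j k) ≠ 0 := by exact_mod_cast hkl
    constructor
    · apply (mul_eq_zero.mp (_ : s * ((wz i k : ℝ) * wz j l - wz i l * wz j k) = 0)).resolve_right hne
      linear_combination (wz j l : ℝ) * hk - (wz j k : ℝ) * hl
    · apply (mul_eq_zero.mp (_ : t * ((wz i k : ℝ) * wz j l - wz i l * wz j k) = 0)).resolve_right hne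
      linear_combination (wz i k : ℝ) * hl - (wz i l : ℝ) * hk

lemma wheel_rank : arrRank wheel = 5 := by
  have h : Submodule.span ℝ (Set.range wheel) = ⊤ := by
    rw [Submodule.eq_top_iff']
    intro x
    have hx : x = x 0 • wheel 0 + x 1 • wheel 1 + x 2 • wheel 2 + x 3 • wheel 3 + x 4 • wheel 4 := by
      funext k
      fin_cases k <;> simp [wheel, wz]
    rw [hx]
    have hm : ∀ i, wheel i ∈ Submodule.span ℝ (Set.range wheel) := fun i =>
      Submodule.subset_span ⟨i, rfl⟩
    exact Submodule.add_mem _ (Submodule.add_mem _ (Submodule.add_mem _ (Submodule.add_mem _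
      (Submodule.smul_mem _ _ (hm 0)) (Submodule.smul_mem _ _ (hm 1)))
      (Submodule.smul_mem _ _ (hm 2))) (Submodule.smul_mem _ _ (hm 3)))
      (Submodule.smul_mem _ _ (hm 4))
  rw [arrRank, h, finrank_top, Module.finrank_fin_fun]

lemma wheel_indecomposable : Indecomposable wheel := by
  intro S hS hS' hdis
  have h0 := wheel_isArrangement.1
  rw [Submodule.disjoint_def] at hdis
  have tri : ∀ a b c : Fin 10, wheel c = wheel a - wheel b → ((a ∈ S ↔ b ∈ S) ∧ (a ∈ S ↔ c ∈ S)) := by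
    intro a b c habc
    have hin : ∀ i, i ∈ S → wheel i ∈ Submodule.span ℝ (wheel '' S) := fun i hi =>
      Submodule.subset_span ⟨i, hi, rfl⟩
    have hout : ∀ i, i ∉ S → wheel i ∈ Submodule.span ℝ (wheel '' Sᶜ) := fun i hi =>
      Submodule.subset_span ⟨i, hi, rfl⟩
    have ha : wheel a = wheel b + wheel c := by rw [habc]; abel
    have hb : wheel b = wheel a - wheel c := by rw [habc]; abel
    by_cases h1 : a ∈ S <;> by_cases h2 : b ∈ S <;> by_cases h3 : c ∈ S
    · simp [h1, h2, h3]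
    · exfalso
      exact h0 c (hdis _ (habc ▸ Submodule.sub_mem _ (hin a h1) (hin b h2)) (hout c h3))
    · exfalso
      exact h0 b (hdis _ (hb ▸ Submodule.sub_mem _ (hin a h1) (hin c h3)) (hout b h2))
    · exfalso
      exact h0 a (hdis _ (hin a h1) (ha ▸ Submodule.add_mem _ (hout b h2) (hout c h3)))
    · exfalso
      exact h0 a (hdis _ (ha ▸ Submodule.add_mem _ (hin b h2) (hin c h3)) (hout a h1))
    · exfalso
      exact h0 b (hdis _ (hin b h2) (hb ▸ Submodule.sub_mem _ (hout a h1) (hout c h3)))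
    · exfalso
      exact h0 c (hdis _ (hin c h3) (habc ▸ Submodule.sub_mem _ (hout a h1) (hout b h2)))
    · simp [h1, h2, h3]
  have e : ∀ i j k : Fin 10, (∀ l, wz k l = wz i l - wz j l) → wheel k = wheel i - wheel j := by
    intro i j k h
    funext l
    simp only [wheel, Pi.sub_apply]
    rw [h l]
    push_cast
    rfl
  have t0 := tri 0 1 5 (e _ _ _ (by decide +kernel))
  have t1 := tri 1 2 6 (e _ _ _ (by decide +kernel))
  have t2 := tri 2 3 7 (e _ _ _ (by decide +kernel))
  have t3 := tri 3 4 8 (e _ _ _ (by decide +kernel))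
  have t4 := tri 4 0 9 (e _ _ _ (by decide +kernel))
  have hall : ∀ i, i ∈ S ↔ (0 : Fin 10) ∈ S := by
    intro i
    fin_cases i
    · exact Iff.rfl
    · exact t0.1.symm
    · exact (t0.1.trans t1.1).symm
    · exact ((t0.1.trans t1.1).trans t2.1).symm
    · exact (((t0.1.trans t1.1).trans t2.1).trans t3.1).symm
    · exact t0.2.symm
    · exact (t0.1.trans t1.2).symm
    · exact ((t0.1.trans t1.1).trans t2.2).symm
    · exact (((t0.1.trans t1.1).trans t2.1).trans t3.2).symm
    · exact (t4.1.symm.trans t4.2).symm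
  obtain ⟨i, hi⟩ := hS
  obtain ⟨j, hj⟩ := hS'
  exact hj ((hall j).mpr ((hall i).mp hi))

/-- There is an indecomposable arrangement of `10` hyperplanes in `ℝ⁵`, of rank `5`, whose tope
graph is not vertex-transitive although the cyclotomic polynomial `Φ_20` does not divide the
reduced denominator of its magnitude. (Its Varchenko matrix is invertible.) -/
theorem result : ∃ α : Fin 10 → Fin 5 → ℝ,
    IsArrangement α ∧ arrRank α = 5 ∧ Indecomposable α ∧ IsUnit (varchenko α).det ∧
    ¬ VertexTransitive (topeGraph α) ∧ ¬ cyclotomic (2 * 10) ℚ ∣ (mag α).denom :=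
  ⟨wheel, wheel_isArrangement, wheel_rank, wheel_indecomposable, (varchenko_det wheel).isUnit,
    not_transitive, not_dvd⟩

end Pool.Agent.Results.MP_0e848e_co.WheelCounterexample
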